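import Mathlib

/-!
Cardinal arithmetic for MP_cd148b_lc: the least `ρ` with `ρ ^ ℵ_k > μ` for some `k`.
-/

set_option autoImplicit false

namespace Pool.Agent.W_cd148b_h39

open Cardinal Ordinal Set

/-- If all functions from `κ` to `ρ` are bounded and `σ ^ κ < ρ` for `σ < ρ`, then
`ρ ^ κ ≤ ρ`. -/
theorem power_le_of_lt_cof {ρ κ : Cardinal.{0}} (hρ : ℵ₀ ≤ ρ) (hκ : κ < ρ.ord.cof)
    (h : ∀ σ < ρ, σ ^ κ < ρ) : ρ ^ κ ≤ ρ := by
  induction κ using Cardinal.inductionOn with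
  | _ K =>
  have hT : #ρ.ord.ToType = ρ := by rw [Cardinal.mk_toType, Cardinal.card_ord]
  have e1 : ρ ^ #K = #(K → ρ.ord.ToType) := by
    rw [← Cardinal.power_def, hT]
  have h1 : (Set.univ : Set (K → ρ.ord.ToType)) ⊆
      ⋃ t : ρ.ord.ToType, {f | ∀ k, f k < t} := by
    intro f _
    have h2 : ¬ IsCofinal (Set.range f) := by
      intro h3
      have h4 := (Order.cof_le h3).trans Cardinal.mk_range_le
      rw [Ordinal.cof_toType] at h4
      exact absurd h4 (not_le.2 hκ)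
    unfold IsCofinal at h2
    push Not at h2
    obtain ⟨t, ht⟩ := h2
    refine Set.mem_iUnion.2 ⟨t, fun k => ?_⟩
    exact ht (f k) ⟨k, rfl⟩
  have h2 : ∀ t : ρ.ord.ToType, #{f : K → ρ.ord.ToType | ∀ k, f k < t} ≤ ρ := by
    intro t
    have h3 : #{f : K → ρ.ord.ToType | ∀ k, f k < t} ≤ #(K → Iio t) := by
      apply Cardinal.mk_le_of_injective
        (f := fun (f : {f : K → ρ.ord.ToType | ∀ k, f k < t}) (k : K) =>
          (⟨f.1 k, f.2 k⟩ : Iio t))
      intro f g hfg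
      apply Subtype.ext
      funext k
      exact congrArg Subtype.val (congrFun hfg k)
    refine h3.trans ?_
    rw [← Cardinal.power_def]
    refine (h _ ?_).le
    have h4 := Cardinal.mk_Iio_lt t (by rw [hT, Ordinal.type_toType])
    rwa [hT] at h4
  rw [e1, ← Cardinal.mk_univ]
  refine (Cardinal.mk_le_mk_of_subset h1).trans ?_
  refine (Cardinal.mk_iUnion_le _).trans ?_
  rw [hT]
  calc ρ * (⨆ t : ρ.ord.ToType, #{f : K → ρ.ord.ToType | ∀ k, f k < t}) ≤ ρ * ρ :=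
        mul_le_mul_right (ciSup_le' h2) _
    _ = ρ := Cardinal.mul_eq_self hρ

theorem power_le_power_cof {ρ κ : Cardinal.{0}} (hρ : ℵ₀ ≤ ρ) (h : ∀ σ < ρ, σ ^ κ < ρ) :
    ρ ^ κ ≤ ρ ^ ρ.ord.cof := by
  induction κ using Cardinal.inductionOn with
  | _ K =>
  have hT : #ρ.ord.ToType = ρ := by rw [Cardinal.mk_toType, Cardinal.card_ord]
  obtain ⟨S, hS, hS'⟩ := Order.exists_cof_eq ρ.ord.ToType
  rw [Ordinal.cof_toType] at hS'
  have e1 : ρ ^ #K = #(K → ρ.ord.ToType) := by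
    rw [← Cardinal.power_def, hT]
  have h1 : #(K → ρ.ord.ToType) ≤ #(∀ s : S, (K → Iic (s : ρ.ord.ToType))) := by
    apply Cardinal.mk_le_of_injective
      (f := fun (f : K → ρ.ord.ToType) (s : S) (k : K) =>
        (⟨min (f k) s, show min (f k) s ≤ s from min_le_right _ _⟩ : Iic (s : ρ.ord.ToType)))
    intro f g hfg
    funext k
    obtain ⟨s, hs, hs'⟩ := hS (max (f k) (g k))
    have h2 := congrArg Subtype.val (congrFun (congrFun hfg ⟨s, hs⟩) k)
    simp only at h2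
    rw [min_eq_left ((le_max_left _ _).trans hs'), min_eq_left ((le_max_right _ _).trans hs')]
      at h2
    exact h2
  rw [e1]
  refine h1.trans ?_
  rw [Cardinal.mk_pi, ← hS', ← Cardinal.prod_const']
  apply Cardinal.prod_le_prod
  intro s
  rw [← Cardinal.power_def]
  refine (h _ ?_).le
  have h3 := Cardinal.mk_Iic_lt (s : ρ.ord.ToType) (by rw [hT, Ordinal.type_toType])
    (by rw [hT]; exact hρ)
  rwa [hT] at h3

/-- The least `ρ` with `ρ ^ ℵ_k > μ` for some `k`. -/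
theorem exists_least_power {μ ρ' : Cardinal.{0}} {k : ℕ} (h1 : ρ' < μ)
    (h2 : μ < ρ' ^ Cardinal.aleph (k : Ordinal)) :
    (∃ k : ℕ, μ < 2 ^ Cardinal.aleph (k : Ordinal)) ∨
    ∃ ρ < μ, ρ.ord.cof < Cardinal.aleph Ordinal.omega0 ∧
      (∀ σ < ρ, ∀ k : ℕ, σ ^ Cardinal.aleph (k : Ordinal) < ρ) ∧ μ < ρ ^ ρ.ord.cof := by
  set P : Set Cardinal.{0} := {ρ | ∃ k : ℕ, μ < ρ ^ Cardinal.aleph (k : Ordinal)} with hP
  obtain ⟨ρ, hρP, hmin⟩ : ∃ ρ ∈ P, ∀ σ ∈ P, ρ ≤ σ :=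
    ⟨sInf P, csInf_mem ⟨ρ', k, h2⟩, fun σ hσ => csInf_le' hσ⟩
  have hρμ : ρ < μ := (hmin ρ' ⟨k, h2⟩).trans_lt h1
  obtain ⟨j, hj⟩ := hρP
  have hmul : ∀ i j : ℕ, Cardinal.aleph (i : Ordinal.{0}) * Cardinal.aleph (j : Ordinal.{0}) =
      Cardinal.aleph ((max i j : ℕ) : Ordinal.{0}) := by
    intro i j
    rw [Cardinal.aleph_mul_aleph]
    congr 1
    rcases le_total i j with h | h
    · rw [max_eq_right h, max_eq_right (by exact_mod_cast h)]
    · rw [max_eq_left h, max_eq_left (by exact_mod_cast h)]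
  by_cases h3 : ∃ i : ℕ, ρ ≤ 2 ^ Cardinal.aleph (i : Ordinal)
  · left
    obtain ⟨i, hi⟩ := h3
    refine ⟨max i j, hj.trans_le ?_⟩
    calc ρ ^ Cardinal.aleph (j : Ordinal) ≤
        (2 ^ Cardinal.aleph (i : Ordinal)) ^ Cardinal.aleph (j : Ordinal) :=
          Cardinal.power_le_power_right hi
      _ = 2 ^ Cardinal.aleph ((max i j : ℕ) : Ordinal) := by
          rw [← Cardinal.power_mul, hmul]
  · right
    push Not at h3
    have hρ : ℵ₀ ≤ ρ := by
      refine le_trans ?_ (h3 0).le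
      exact (Cardinal.aleph0_le_aleph _).trans (Cardinal.cantor _).le
    have hcl : ∀ σ < ρ, ∀ i : ℕ, σ ^ Cardinal.aleph (i : Ordinal) < ρ := by
      intro σ hσ i
      by_contra h4
      have h5 : σ ∈ P := by
        refine ⟨max i j, hj.trans_le ?_⟩
        calc ρ ^ Cardinal.aleph (j : Ordinal) ≤
            (σ ^ Cardinal.aleph (i : Ordinal)) ^ Cardinal.aleph (j : Ordinal) :=
              Cardinal.power_le_power_right (not_lt.1 h4)
          _ = σ ^ Cardinal.aleph ((max i j : ℕ) : Ordinal) := by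
              rw [← Cardinal.power_mul, hmul]
      exact absurd (hmin σ h5) (not_le.2 hσ)
    have hcof : ρ.ord.cof ≤ Cardinal.aleph (j : Ordinal) := by
      by_contra h4
      have h5 := power_le_of_lt_cof hρ (not_le.1 h4) (fun σ hσ => hcl σ hσ j)
      exact absurd (hj.trans_le h5) (not_lt.2 hρμ.le)
    refine ⟨ρ, hρμ, ?_, hcl, ?_⟩
    · refine hcof.trans_lt (Cardinal.aleph_lt_aleph.2 ?_)
      exact Ordinal.natCast_lt_omega0 j
    · exact hj.trans_le (power_le_power_cof hρ (fun σ hσ => hcl σ hσ j))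

end Pool.Agent.W_cd148b_h39
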