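import Pool.Agent.W_cd148b_h39.Power

/-!
MP_cd148b_lc: reduction of the question on pseudopowers at cofinalities `ℵ_n` to cardinals of
cofinality `ω` which are limits of many cardinals and small compared with some power.
-/

set_option autoImplicit false

namespace Pool.Agent.W_cd148b_h39

open Cardinal Ordinal Set

/-- `J` is an `ℵ_n`-complete proper ideal on the set `a`, which contains the subsets of `a`
that are bounded below `lam`. -/
structure GoodIdeal (n : ℕ) (lam : Cardinal.{0}) (a : Set Cardinal.{0})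
    (J : Set (Set Cardinal.{0})) : Prop where
  sub : ∀ b ∈ J, b ⊆ a
  proper : a ∉ J
  down : ∀ b ∈ J, ∀ c, c ⊆ b → c ∈ J
  complete : ∀ S : Set (Set Cardinal.{0}), S ⊆ J →
    Cardinal.mk S < Cardinal.aleph (n : Ordinal) → ⋃₀ S ∈ J
  bdd : ∀ b, b ⊆ a → (∃ θ < lam, ∀ x ∈ b, x < θ) → b ∈ J

/-- `F` is an increasing and cofinal sequence of length `κ` in the product of `a` modulo `J`. -/
structure IsScale (a : Set Cardinal.{0}) (J : Set (Set Cardinal.{0})) (κ : Cardinal.{0})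
    (F : Ordinal.{0} → Cardinal.{0} → Ordinal.{0}) : Prop where
  mem : ∀ i < κ.ord, ∀ x ∈ a, F i x < x.ord
  incr : ∀ i < κ.ord, ∀ j < κ.ord, i < j → {x ∈ a | ¬ F i x < F j x} ∈ J
  cof : ∀ g : Cardinal.{0} → Ordinal.{0}, (∀ x ∈ a, g x < x.ord) →
    ∃ i < κ.ord, {x ∈ a | ¬ g x < F i x} ∈ J

/-- The regular cardinal `κ` is the true cofinality of a product as in the definition of the
pseudopower of `lam` for `ℵ_n`-complete ideals on sets of at most `ℵ_n` regular cardinals. -/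
def InPP (n : ℕ) (lam κ : Cardinal.{0}) : Prop :=
  κ.IsRegular ∧ ∃ (a : Set Cardinal.{0}) (J : Set (Set Cardinal.{0}))
    (F : Ordinal.{0} → Cardinal.{0} → Ordinal.{0}),
    (∀ x ∈ a, x.IsRegular ∧ x < lam) ∧ (∀ θ < lam, ∃ x ∈ a, θ < x) ∧
    Cardinal.mk a < Cardinal.aleph ((n : Ordinal) + 1) ∧ GoodIdeal n lam a J ∧ IsScale a J κ F

/-- Some cardinal `lam < ν` of cofinality `ℵ_n` has pseudopower greater than `μ`. -/
def Bad (n : ℕ) (ν μ : Cardinal.{0}) : Prop :=
  ∃ lam κ : Cardinal.{0}, lam < ν ∧ (Cardinal.ord lam).cof = Cardinal.aleph (n : Ordinal) ∧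
    μ < κ ∧ InPP n lam κ

/-- The statement of the question for the cardinal `μ`. -/
def Q (μ : Cardinal.{0}) : Prop := ∃ N : ℕ, ∀ n : ℕ, N ≤ n → ¬ Bad n μ μ

theorem Bad.mono {n : ℕ} {ν ν' μ μ' : Cardinal.{0}} (h : Bad n ν μ) (h1 : ν ≤ ν')
    (h2 : μ' ≤ μ) : Bad n ν' μ' := by
  obtain ⟨lam, κ, h3, h4, h5, h6⟩ := h
  exact ⟨lam, κ, h3.trans_le h1, h4, h2.trans_lt h5, h6⟩

theorem InPP.exists_between {n : ℕ} {lam κ θ : Cardinal.{0}} (h : InPP n lam κ) (hθ : θ < lam) :
    ∃ x, θ < x ∧ x < lam := by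
  obtain ⟨-, a, J, F, h1, h2, -⟩ := h
  obtain ⟨x, hx, hx'⟩ := h2 θ hθ
  exact ⟨x, hx', (h1 x hx).2⟩

/-- The pseudopower is at most `lam ^ ℵ_n`. -/
theorem InPP.le_power {n : ℕ} {lam κ : Cardinal.{0}} (h : InPP n lam κ) :
    κ ≤ lam ^ Cardinal.aleph (n : Ordinal) := by
  obtain ⟨hκ, a, J, F, h1, h2, h3, h4, h5⟩ := h
  have hlam : 0 < lam := by
    by_contra h0
    have h0' : lam = 0 := by simpa using h0
    apply h4.proper
    have : a = ∅ := by
      ext x
      simp only [mem_empty_iff_false, iff_false]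
      intro hx
      have := (h1 x hx).2
      rw [h0'] at this
      exact absurd this (by simp)
    rw [this]
    have := h4.complete ∅ (by simp) (by
      have : #(∅ : Set (Set Cardinal.{0})) = 0 := Cardinal.mk_eq_zero _
      rw [this]
      exact Cardinal.aleph_pos _)
    simpa using this
  -- the members of the scale are different
  have key : Function.Injective fun (i : Iio κ.ord) (x : a) =>
      (⟨F i.1 x.1, (h5.mem i.1 i.2 x.1 x.2).trans_le (Cardinal.ord_le_ord.2 (h1 x.1 x.2).2.le)⟩ :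
        Iio lam.ord) := by
    intro i j hij
    have hxx : ∀ x ∈ a, F i.1 x = F j.1 x := by
      intro x hx
      have := congrArg Subtype.val (congrFun hij ⟨x, hx⟩)
      exact this
    by_contra hne
    rcases lt_or_gt_of_ne (fun h => hne (Subtype.ext h) : i.1 ≠ j.1) with h | h
    · have h6 := h5.incr i.1 i.2 j.1 j.2 h
      apply h4.proper
      convert h6 using 1
      ext x
      simp only [mem_ofPred_eq]
      exact ⟨fun hx => ⟨hx, by rw [hxx x hx]; exact lt_irrefl _⟩, fun hx => hx.1⟩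
    · have h6 := h5.incr j.1 j.2 i.1 i.2 h
      apply h4.proper
      convert h6 using 1
      ext x
      simp only [mem_ofPred_eq]
      exact ⟨fun hx => ⟨hx, by rw [hxx x hx]; exact lt_irrefl _⟩, fun hx => hx.1⟩
  have h6 := Cardinal.mk_le_of_injective key
  rw [Cardinal.mk_Iio_ordinal, Cardinal.card_ord] at h6
  have h7 : #(a → Iio lam.ord) ≤ (Cardinal.lift.{1} lam) ^ Cardinal.aleph (n : Ordinal) := by
    rw [← Cardinal.power_def, Cardinal.mk_Iio_ordinal, Cardinal.card_ord]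
    apply Cardinal.power_le_power_left
    · intro h
      exact hlam.ne' (Cardinal.lift_eq_zero.1 h)
    · rw [← Cardinal.succ_aleph, Order.lt_succ_iff] at h3
      exact h3
  have h8 := h6.trans h7
  have h9 : (Cardinal.lift.{1} lam) ^ Cardinal.aleph (n : Ordinal.{1}) =
      Cardinal.lift.{1} (lam ^ Cardinal.aleph (n : Ordinal.{0})) := by
    rw [Cardinal.lift_power, Cardinal.lift_aleph]
    simp
  rw [h9] at h8
  exact Cardinal.lift_le.1 h8

/-- If `lam` is a limit cardinal, the number of cardinals in `[θ, lam)` is at least the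
cofinality of `lam`. -/
theorem aleph_le_mk_Ico {n : ℕ} {θ lam : Cardinal.{0}} (hθ : θ < lam)
    (hl : ∀ x < lam, ∃ y, x < y ∧ y < lam)
    (hc : (Cardinal.ord lam).cof = Cardinal.aleph (n : Ordinal)) :
    Cardinal.aleph (n : Ordinal.{1}) ≤ #(Ico θ lam) := by
  have hmap : Order.cof (Iio lam) = Order.cof (Iio lam.ord) := by
    apply Order.cof_congr_of_strictMono
      (f := fun x : Iio lam => (⟨x.1.ord, Cardinal.ord_lt_ord.2 x.2⟩ : Iio lam.ord))
    · intro x y hxy
      exact Cardinal.ord_lt_ord.2 hxy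
    · intro o
      have h1 : o.1.card < lam := Cardinal.lt_ord.1 o.2
      obtain ⟨y, hy, hy'⟩ := hl _ h1
      refine ⟨_, ⟨⟨y, hy'⟩, rfl⟩, ?_⟩
      show o.1 ≤ y.ord
      exact (Cardinal.lt_ord.2 hy).le
  rw [Ordinal.cof_Iio, ← Ordinal.lift_cof, hc, Cardinal.lift_aleph] at hmap
  have h2 : IsCofinal {x : Iio lam | θ ≤ x.1} := by
    intro x
    refine ⟨⟨max θ x.1, max_lt hθ x.2⟩, ?_, ?_⟩
    · exact le_max_left θ x.1
    · exact le_max_right θ x.1
  have h3 := Order.cof_le h2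
  rw [hmap] at h3
  have h4 : #{x : Iio lam | θ ≤ x.1} ≤ #(Ico θ lam) := by
    apply Cardinal.mk_le_of_injective
      (f := fun x : {x : Iio lam | θ ≤ x.1} => (⟨x.1.1, x.2, x.1.2⟩ : Ico θ lam))
    intro x y hxy
    apply Subtype.ext
    apply Subtype.ext
    exact congrArg (fun z : Ico θ lam => z.1) hxy
  refine le_trans (le_of_eq ?_) (h3.trans h4)
  simp

/-- The cardinals to which the question is reduced: cofinality `ω`, at least `ℵ_ω` cardinals in
every interval `[θ, μ)`, and `μ` is smaller than some `2 ^ ℵ_k` or than `ρ ^ cf ρ` for some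
`ρ < μ` of cofinality less than `ℵ_ω` which is closed under the powers `σ ^ ℵ_k`. -/
structure Special (μ : Cardinal.{0}) : Prop where
  cof : (Cardinal.ord μ).cof = Cardinal.aleph0
  many : ∀ θ < μ, Cardinal.aleph Ordinal.omega0 ≤ Cardinal.mk (Set.Ico θ μ)
  power : (∃ k : ℕ, μ < 2 ^ Cardinal.aleph (k : Ordinal)) ∨
    ∃ ρ < μ, (Cardinal.ord ρ).cof < Cardinal.aleph Ordinal.omega0 ∧
      (∀ σ < ρ, ∀ k : ℕ, σ ^ Cardinal.aleph (k : Ordinal) < ρ) ∧
      μ < ρ ^ (Cardinal.ord ρ).cof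

/-- The main step: below a cardinal where the statement fails there is one of the special kind
where it fails. -/
theorem exists_special {μ : Cardinal.{0}} (h : ¬ Q μ) : ∃ ν ≤ μ, Special ν ∧ ¬ Q ν := by
  have h0 : ∀ N : ℕ, ∃ n, N ≤ n ∧ Bad n μ μ := by
    intro N
    by_contra hN
    push Not at hN
    exact h ⟨N, fun n hn => hN n hn⟩
  set P : Set Cardinal.{0} := {ν | ∀ N : ℕ, ∃ n, N ≤ n ∧ Bad n ν μ} with hP
  have hμP : μ ∈ P := h0
  obtain ⟨μ', hμ', hmin⟩ : ∃ μ' ∈ P, ∀ ν ∈ P, μ' ≤ ν :=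
    ⟨sInf P, csInf_mem ⟨μ, hμP⟩, fun ν hν => csInf_le' hν⟩
  have hle : μ' ≤ μ := hmin μ hμP
  -- far out witnesses
  have hfar : ∀ θ < μ', ∀ N : ℕ, ∃ n, N ≤ n ∧ ∃ lam κ : Cardinal.{0}, θ ≤ lam ∧ lam < μ' ∧
      (Cardinal.ord lam).cof = Cardinal.aleph (n : Ordinal) ∧ μ < κ ∧ InPP n lam κ := by
    intro θ hθ N
    have h1 : θ ∉ P := fun h => absurd (hmin θ h) (not_le.2 hθ)
    simp only [hP, mem_ofPred_eq] at h1
    push Not at h1
    obtain ⟨N0, hN0⟩ := h1
    obtain ⟨n, hn, lam, κ, h2, h3, h4, h5⟩ := hμ' (max N N0)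
    refine ⟨n, (le_max_left _ _).trans hn, lam, κ, ?_, h2, h3, h4, h5⟩
    by_contra h6
    exact hN0 n ((le_max_right _ _).trans hn) ⟨lam, κ, not_le.1 h6, h3, h4, h5⟩
  have hlt : ∀ θ < μ', ∀ N : ℕ, ∃ n, N ≤ n ∧ ∃ lam κ : Cardinal.{0}, θ < lam ∧ lam < μ' ∧
      (Cardinal.ord lam).cof = Cardinal.aleph (n : Ordinal) ∧ μ < κ ∧ InPP n lam κ := by
    intro θ hθ N
    obtain ⟨n1, hn1, lam1, κ1, h1, h2, h3, h4, h5⟩ := hfar θ hθ N
    obtain ⟨n2, hn2, lam2, κ2, g1, g2, g3, g4, g5⟩ := hfar θ hθ (n1 + 1)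
    by_cases h6 : θ < lam1
    · exact ⟨n1, hn1, lam1, κ1, h6, h2, h3, h4, h5⟩
    · refine ⟨n2, by omega, lam2, κ2, lt_of_le_of_ne g1 ?_, g2, g3, g4, g5⟩
      intro h7
      have h8 : lam1 = lam2 := by rw [← h7]; exact le_antisymm (not_lt.1 h6) h1
      rw [h8, g3] at h3
      have h9 := Cardinal.aleph.injective h3
      have h10 : n2 = n1 := by exact_mod_cast h9
      omega
  have hQ : ¬ Q μ' := by
    rintro ⟨N, hN⟩
    obtain ⟨n, hn, hb⟩ := hμ' N
    exact hN n hn (hb.mono le_rfl hle)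
  refine ⟨μ', hle, ⟨?_, ?_, ?_⟩, hQ⟩
  · -- the cofinality
    have hpos : 0 < μ' := by
      obtain ⟨n, -, lam, κ, h1, -⟩ := hμ' 0
      exact (bot_le (α := Cardinal.{0})).trans_lt h1
    have hlim : ∀ θ < μ', Order.succ θ < μ' := by
      intro θ hθ
      obtain ⟨n, -, lam, κ, h1, h2, -⟩ := hlt θ hθ 0
      exact (Order.succ_le_of_lt h1).trans_lt h2
    have hinf : ℵ₀ ≤ μ' := by
      by_contra h1
      obtain ⟨m, hm⟩ := Cardinal.lt_aleph0.1 (not_le.1 h1)
      cases m with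
      | zero => simp [hm] at hpos
      | succ m =>
        have := hlim m (by rw [hm]; exact_mod_cast Nat.lt_succ_self m)
        rw [hm, Cardinal.succ_natCast] at this
        push_cast at this
        exact absurd this (lt_irrefl _)
    apply le_antisymm
    · by_contra hcof
      choose f hf using fun N : ℕ => hμ' N
      choose g κ hg using fun N : ℕ => (hf N).2
      have h1 : (⨆ N : ℕ, g N) < μ' := by
        apply Cardinal.iSup_lt_of_lt_cof_ord
        · rw [Cardinal.mk_nat]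
          exact not_le.1 hcof
        · exact fun N => (hg N).1
      have h2 := hlim _ h1
      have h3 : Order.succ (⨆ N : ℕ, g N) ∈ P := by
        intro N
        refine ⟨f N, (hf N).1, g N, κ N, ?_, (hg N).2⟩
        exact Order.lt_succ_of_le (le_ciSup (Cardinal.bddAbove_of_small) N)
      exact absurd (hmin _ h3) (not_le.2 h2)
    · rw [Ordinal.aleph0_le_cof_iff, Ordinal.one_lt_cof_iff]
      exact Cardinal.isSuccLimit_ord hinf
  · intro θ hθ
    rw [Cardinal.aleph_limit Ordinal.isSuccLimit_omega0]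
    apply ciSup_le'
    rintro ⟨o, ho⟩
    obtain ⟨m, rfl⟩ := Ordinal.lt_omega0.1 ho
    obtain ⟨n, hn, lam, κ, h1, h2, h3, h4, h5⟩ := hlt θ hθ m
    have h6 := aleph_le_mk_Ico h1 (fun x hx => h5.exists_between hx) h3
    have h7 : #(Ico θ lam) ≤ #(Ico θ μ') :=
      Cardinal.mk_le_mk_of_subset fun x hx => ⟨hx.1, hx.2.trans h2⟩
    refine le_trans ?_ (h6.trans h7)
    apply Cardinal.aleph_le_aleph.2
    show (m : Ordinal.{1}) ≤ (n : Ordinal.{1})
    exact_mod_cast hn
  · obtain ⟨n, -, lam, κ, h1, h2, h3, h4⟩ := hμ' 0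
    exact exists_least_power h1 ((hle.trans_lt h3).trans_le h4.le_power)

end Pool.Agent.W_cd148b_h39
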